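import Mathlib
import Pool.Agent.Lib_helper53.Chang.Chain

set_option autoImplicit false

/-!
# MP_6bbf11_lc: families of functions dominated by few functions
-/

namespace Pool.Agent.Results.MP_6bbf11_lc.DominatedFamilies

/-- the ordinal `κ⁺` -/
noncomputable abbrev k1 (κ : Cardinal.{0}) : Ordinal.{0} := (Order.succ κ).ord

/-- the ordinal `κ⁺⁺` -/
noncomputable abbrev k2 (κ : Cardinal.{0}) : Ordinal.{0} := (Order.succ (Order.succ κ)).ord

/-- the ordinal `κ⁺⁺⁺` -/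
noncomputable abbrev k3 (κ : Cardinal.{0}) : Ordinal.{0} :=
  (Order.succ (Order.succ (Order.succ κ))).ord

/-- `X` is a Chang set: `X ⊆ κ⁺⁺⁺`, `|X| = κ⁺`, `|X ∩ κ⁺⁺| = κ` and `κ ⊆ X` -/
def IsChang (κ : Cardinal.{0}) (X : Set Ordinal.{0}) : Prop :=
  X ⊆ Set.Iio (k3 κ) ∧ Cardinal.mk X = Cardinal.lift.{1} (Order.succ κ) ∧
    Cardinal.mk ↥(X ∩ Set.Iio (k2 κ)) = Cardinal.lift.{1} κ ∧ Set.Iio κ.ord ⊆ X

/-- a property of subsets of `κ⁺⁺⁺` is stationary: for every function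
`f : [κ⁺⁺⁺]^{<ω} → κ⁺⁺⁺` some set with the property is closed under `f` -/
def Stationary (κ : Cardinal.{0}) (S : Set Ordinal.{0} → Prop) : Prop :=
  ∀ f : Finset Ordinal.{0} → Ordinal.{0},
    (∀ s : Finset Ordinal.{0}, (∀ a ∈ s, a < k3 κ) → f s < k3 κ) →
    ∃ X : Set Ordinal.{0}, S X ∧ ∀ s : Finset Ordinal.{0}, (∀ a ∈ s, a ∈ X) → f s ∈ X

/-- every family of `κ⁺⁺⁺` functions from `κ⁺` to `κ⁺` is dominated, modulo bounded sets, by a
family of `κ⁺⁺` functions from `κ⁺` to `κ⁺` -/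
def SmallDomination (κ : Cardinal.{0}) : Prop :=
  ∀ H : Ordinal.{0} → Ordinal.{0} → Ordinal.{0}, (∀ α < k3 κ, ∀ ξ < k1 κ, H α ξ < k1 κ) →
    ∃ D : Ordinal.{0} → Ordinal.{0} → Ordinal.{0},
      (∀ i < k2 κ, ∀ ξ < k1 κ, D i ξ < k1 κ) ∧
      ∀ α < k3 κ, ∃ i < k2 κ, ∃ ε < k1 κ, ∀ ξ, ε ≤ ξ → ξ < k1 κ → H α ξ ≤ D i ξ

/-- the Chang sets are stationary: the form used in the library -/
theorem toCC {κ : Cardinal.{0}} (h : Stationary κ (IsChang κ)) : Lib53.Chang.CC κ := by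
  intro f hf
  obtain ⟨X, ⟨h1, h2, h3, h4⟩, h5⟩ := h f hf
  exact ⟨X, h1, h5, h2, h3, h4⟩

/-- **Q1 under small domination.** Let `κ` be an infinite cardinal for which the Chang sets are
stationary, and suppose that every family of `κ⁺⁺⁺` functions from `κ⁺` to `κ⁺` is dominated by
`κ⁺⁺` functions. Then for every regular `ν ≤ κ` the Chang sets `X` for which `X ∩ κ⁺` has
cofinality `ν` are stationary. -/
theorem result : ∀ κ : Cardinal.{0}, Cardinal.aleph0 ≤ κ → SmallDomination κ →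
    Stationary κ (IsChang κ) → ∀ ν : Cardinal.{0}, ν.IsRegular → ν ≤ κ →
    Stationary κ (fun X => IsChang κ X ∧ (sSup (X ∩ Set.Iio (k1 κ))).cof = ν) := by
  intro κ hκ hD h ν hν hνκ f hf
  obtain ⟨X, h1, h2, h3, h4, h5, h6⟩ := Lib53.Chang.caseA_eq hκ hν hνκ hD (toCC h) f hf
  exact ⟨X, ⟨⟨h1, h3, h4, h5⟩, h6⟩, h2⟩

end Pool.Agent.Results.MP_6bbf11_lc.DominatedFamilies
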