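import Mathlib
import Pool.Agent.Lib_helper53.Chang.Chain

set_option autoImplicit false

/-!
# MP_6bbf11_lc: long chains of functions
-/

namespace Pool.Agent.Results.MP_6bbf11_lc.LongChains

/-- the ordinal `κ⁺` -/
noncomputable abbrev k1 (κ : Cardinal.{0}) : Ordinal.{0} := (Order.succ κ).ord

/-- the ordinal `κ⁺⁺` -/
noncomputable abbrev k2 (κ : Cardinal.{0}) : Ordinal.{0} := (Order.succ (Order.succ κ)).ord

/-- the ordinal `κ⁺⁺⁺` -/
noncomputable abbrev k3 (κ : Cardinal.{0}) : Ordinal.{0} :=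
  (Order.succ (Order.succ (Order.succ κ))).ord

/-- `X` is a Chang set: `X ⊆ κ⁺⁺⁺`, `|X| = κ⁺`, `|X ∩ κ⁺⁺| = κ` and `κ ⊆ X` -/
def IsChang (κ : Cardinal.{0}) (X : Set Ordinal.{0}) : Prop :=
  X ⊆ Set.Iio (k3 κ) ∧ Cardinal.mk X = Cardinal.lift.{1} (Order.succ κ) ∧
    Cardinal.mk ↥(X ∩ Set.Iio (k2 κ)) = Cardinal.lift.{1} κ ∧ Set.Iio κ.ord ⊆ X

/-- a property of subsets of `κ⁺⁺⁺` is stationary: for every function
`f : [κ⁺⁺⁺]^{<ω} → κ⁺⁺⁺` some set with the property is closed under `f` -/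
def Stationary (κ : Cardinal.{0}) (S : Set Ordinal.{0} → Prop) : Prop :=
  ∀ f : Finset Ordinal.{0} → Ordinal.{0},
    (∀ s : Finset Ordinal.{0}, (∀ a ∈ s, a < k3 κ) → f s < k3 κ) →
    ∃ X : Set Ordinal.{0}, S X ∧ ∀ s : Finset Ordinal.{0}, (∀ a ∈ s, a ∈ X) → f s ∈ X

/-- there is a chain of length `κ⁺⁺⁺` of functions from `κ⁺` to `κ⁺⁺`, strictly increasing modulo
bounded sets -/
def LongChain (κ : Cardinal.{0}) : Prop :=
  ∃ g : Ordinal.{0} → Ordinal.{0} → Ordinal.{0},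
    (∀ α < k3 κ, ∀ ξ < k1 κ, g α ξ < k2 κ) ∧
    ∀ α < k3 κ, ∀ β < α, ∃ Δ < k1 κ, ∀ ξ, Δ ≤ ξ → ξ < k1 κ → g β ξ < g α ξ

/-- there is a chain of length `κ⁺` of functions from `ω` to `κ`, strictly increasing modulo
finite sets -/
def OmegaChain (κ : Cardinal.{0}) : Prop :=
  ∃ v : Ordinal.{0} → ℕ → Ordinal.{0},
    (∀ i < k1 κ, ∀ n, v i n < κ.ord) ∧
    ∀ i < k1 κ, ∀ j < i, ∃ N : ℕ, ∀ n, N ≤ n → v j n < v i n

/-- the Chang sets are stationary: the form used in the library -/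
theorem toCC {κ : Cardinal.{0}} (h : Stationary κ (IsChang κ)) : Lib53.Chang.CC κ := by
  intro f hf
  obtain ⟨X, ⟨h1, h2, h3, h4⟩, h5⟩ := h f hf
  exact ⟨X, h1, h5, h2, h3, h4⟩

theorem ofCCcof {κ : Cardinal.{0}} (h : Lib53.Chang.CCcof κ) :
    Stationary κ (fun X => IsChang κ X ∧ Cardinal.aleph0 < (sSup (X ∩ Set.Iio (k1 κ))).cof) := by
  intro f hf
  obtain ⟨X, h1, h2, h3, h4, h5, h6⟩ := h f hf
  exact ⟨X, ⟨⟨h1, h3, h4, h5⟩, h6⟩, h2⟩

/-- **Q1 and long chains.** Let `κ` be regular and uncountable, let the Chang sets be stationary,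
and suppose that there is a `κ⁺⁺⁺`-chain of functions from `κ⁺` to `κ⁺⁺` modulo bounded sets, but no
`κ⁺`-chain of functions from `ω` to `κ` modulo finite sets. Then the Chang sets `X` for which
`X ∩ κ⁺` has uncountable cofinality are stationary. -/
theorem result : ∀ κ : Cardinal.{0}, κ.IsRegular → Cardinal.aleph0 < κ →
    LongChain κ → ¬ OmegaChain κ → Stationary κ (IsChang κ) →
    Stationary κ (fun X => IsChang κ X ∧ Cardinal.aleph0 < (sSup (X ∩ Set.Iio (k1 κ))).cof) := by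
  intro κ hκ hκ' h1 h2 h
  exact ofCCcof (Lib53.Chang.caseC hκ hκ' h1 h2 (toCC h))

end Pool.Agent.Results.MP_6bbf11_lc.LongChains
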