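import Mathlib
import Pool.Agent.Lib_helper53.Chang.Chain

set_option autoImplicit false

/-!
# MP_6bbf11_lc: a criterion for a negative answer
-/

namespace Pool.Agent.Results.MP_6bbf11_lc.NegativeCriterion

/-- the ordinal `κ⁺` -/
noncomputable abbrev k1 (κ : Cardinal.{0}) : Ordinal.{0} := (Order.succ κ).ord

/-- the ordinal `κ⁺⁺` -/
noncomputable abbrev k2 (κ : Cardinal.{0}) : Ordinal.{0} := (Order.succ (Order.succ κ)).ord

/-- the ordinal `κ⁺⁺⁺` -/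
noncomputable abbrev k3 (κ : Cardinal.{0}) : Ordinal.{0} :=
  (Order.succ (Order.succ (Order.succ κ))).ord

/-- `X` is a Chang set: `X ⊆ κ⁺⁺⁺`, `|X| = κ⁺`, `|X ∩ κ⁺⁺| = κ` and `κ ⊆ X` -/
def IsChang (κ : Cardinal.{0}) (X : Set Ordinal.{0}) : Prop :=
  X ⊆ Set.Iio (k3 κ) ∧ Cardinal.mk X = Cardinal.lift.{1} (Order.succ κ) ∧
    Cardinal.mk ↥(X ∩ Set.Iio (k2 κ)) = Cardinal.lift.{1} κ ∧ Set.Iio κ.ord ⊆ X

/-- a property of subsets of `κ⁺⁺⁺` is stationary: for every function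
`f : [κ⁺⁺⁺]^{<ω} → κ⁺⁺⁺` some set with the property is closed under `f` -/
def Stationary (κ : Cardinal.{0}) (S : Set Ordinal.{0} → Prop) : Prop :=
  ∀ f : Finset Ordinal.{0} → Ordinal.{0},
    (∀ s : Finset Ordinal.{0}, (∀ a ∈ s, a < k3 κ) → f s < k3 κ) →
    ∃ X : Set Ordinal.{0}, S X ∧ ∀ s : Finset Ordinal.{0}, (∀ a ∈ s, a ∈ X) → f s ∈ X

/-- there are `κ⁺⁺⁺` functions from `κ⁺` to `κ` such that any two of them differ at every point of
uncountable cofinality of some club of `κ⁺` (the set of points closed under some function `d`) -/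
def SeparatedFunctions (κ : Cardinal.{0}) : Prop :=
  ∃ F : Ordinal.{0} → Ordinal.{0} → Ordinal.{0},
    (∀ α < k3 κ, ∀ ξ < k1 κ, F α ξ < κ.ord) ∧
    ∀ α < k3 κ, ∀ β < k3 κ, α ≠ β → ∃ d : Ordinal.{0} → Ordinal.{0},
      (∀ ζ < k1 κ, d ζ < k1 κ) ∧
      ∀ ξ < k1 κ, Cardinal.aleph0 < ξ.cof → (∀ ζ < ξ, d ζ < ξ) → F α ξ ≠ F β ξ

/-- **A negative criterion.** Let `κ` be an infinite cardinal. If there are `κ⁺⁺⁺` functions from
`κ⁺` to `κ` which pairwise differ at the points of uncountable cofinality of a club, then the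
Chang sets `X` for which `X ∩ κ⁺` has uncountable cofinality are not stationary. -/
theorem result : ∀ κ : Cardinal.{0}, Cardinal.aleph0 ≤ κ → SeparatedFunctions κ →
    ¬ Stationary κ (fun X => IsChang κ X ∧ Cardinal.aleph0 < (sSup (X ∩ Set.Iio (k1 κ))).cof) := by
  intro κ hκ hS h
  refine Lib53.Chang.Sep.neg hκ hS ?_
  intro f hf
  obtain ⟨X, ⟨⟨h1, h3, h4, h5⟩, h6⟩, h2⟩ := h f hf
  exact ⟨X, h1, h2, h3, h4, h5, h6⟩

end Pool.Agent.Results.MP_6bbf11_lc.NegativeCriterion
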